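import Pool.Agent.H33.KG.BAS

/-!
# Project KG, module EIG: coordinates in which the covariance matrix is diagonal
-/

set_option autoImplicit false
set_option linter.unusedSectionVars false

open MeasureTheory Set Filter Topology Matrix
open scoped ContDiff

namespace Pool.Agent.H73.KG

open Pool.Agent.H84 Pool.Agent.H84.Sym Pool.Agent.H84.Sym.P2x Pool.Agent.H84.Sym.C29
open Pool.Agent.H19.KL

section

variable {E : Type} [NormedAddCommGroup E] [InnerProductSpace ℝ E]
    [FiniteDimensional ℝ E] [MeasurableSpace E] [BorelSpace E]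
variable {ι : Type} [Fintype ι]

theorem EIG_bil {U : E → ℝ} {t C : ℝ} (hU : Pot U t C) (b : OrthonormalBasis ι ℝ E)
    (x y : ι → ℝ) : cv U (li (∑ i, x i • b i)) (li (∑ i, y i • b i)) = x ⬝ᵥ (cm b U *ᵥ y) := by
  classical
  have hl : ∀ (x : ι → ℝ) (s : Finset ι),
      li (∑ i ∈ s, x i • b i) = fun z => ∑ i ∈ s, x i * li (b i) z := by
    intro x s
    funext z
    unfold li
    rw [sum_inner]
    exact Finset.sum_congr rfl fun i _ => by rw [real_inner_smul_left]
  have hG : ∀ (x : ι → ℝ) (s : Finset ι), GC (fun z => ∑ i ∈ s, x i * li (b i) z) := fun x s =>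
    GC.sum fun i => (GC.const (x i)).mul (BAS_li (b i))
  have hsum : ∀ (x : ι → ℝ) (s : Finset ι) (h : E → ℝ), GC h →
      cv U (fun z => ∑ i ∈ s, x i * li (b i) z) h = ∑ i ∈ s, x i * cv U (li (b i)) h := by
    intro x s h hh
    induction s using Finset.induction_on with
    | empty =>
      simp only [Finset.sum_empty]
      unfold cv
      simp
    | insert a s ha ih =>
      simp only [Finset.sum_insert ha]
      rw [BAS_add hU ((GC.const (x a)).mul (BAS_li (b a))) (hG x s) hh, BAS_smul, ih]
  rw [hl, hl, hsum _ _ _ (hG _ _)]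
  simp only [dotProduct, mulVec]
  refine Finset.sum_congr rfl fun i _ => ?_
  congr 1
  rw [BAS_symm, hsum _ _ _ (BAS_li _)]
  refine Finset.sum_congr rfl fun j _ => ?_
  rw [BAS_symm U (li (b j))]
  simp only [cm, Matrix.of_apply]
  ring

end

theorem eig_thm (E : Type) [NormedAddCommGroup E] [InnerProductSpace ℝ E]
    [FiniteDimensional ℝ E] [MeasurableSpace E] [BorelSpace E] : EIGStmt E := by
  rintro U t ⟨⟨C, hU⟩, hp⟩ ι _ _ b
  have hH := BAS_herm b U
  set v := hH.eigenvectorBasis with hv
  set c : OrthonormalBasis ι ℝ E := v.map b.repr.symm with hc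
  have hci : ∀ i, c i = ∑ j, (v i) j • b j := by
    intro i
    rw [hc, OrthonormalBasis.map_apply]
    exact b.sum_repr_symm (v i) |>.symm
  have hmul : ∀ j, cm b U *ᵥ (fun k => (v j) k) = hH.eigenvalues j • (fun k => (v j) k) :=
    fun j => hH.mulVec_eigenvectorBasis j
  have hdot : ∀ i j, (fun k => (v i) k) ⬝ᵥ (fun k => (v j) k) = if i = j then (1:ℝ) else 0 := by
    intro i j
    have h := orthonormal_iff_ite.1 v.orthonormal i j
    rw [← h, PiLp.inner_apply]
    simp only [dotProduct]
    refine Finset.sum_congr rfl fun k _ => ?_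
    simp [mul_comm]
  have hcm : ∀ i j, cm c U i j = if i = j then hH.eigenvalues i else 0 := by
    intro i j
    have : cm c U i j = cv U (li (c i)) (li (c j)) := rfl
    rw [this, hci i, hci j, EIG_bil hU b (fun k => (v i) k) (fun k => (v j) k), hmul,
      dotProduct_smul, hdot]
    split_ifs with h
    · rw [h]; simp
    · simp
  refine ⟨c, hH.eigenvalues, fun i => ?_, ?_⟩
  · have h1 := BAS_nonneg hU hp (BAS_li (c i))
    have h2 : cm c U i i = cv U (li (c i)) (li (c i)) := rfl
    rw [← h2, hcm, if_pos rfl] at h1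
    exact h1
  · ext i j
    rw [hcm, Matrix.diagonal_apply]

end Pool.Agent.H73.KG
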