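import Pool.Agent.H33.KG.BAS
import Pool.Agent.H29.Sym.S

/-!
# Project KG, module IMP: the improved Lichnerowicz inequality
-/

set_option autoImplicit false
set_option linter.unusedSectionVars false

open MeasureTheory Set Filter Topology
open scoped ContDiff

namespace Pool.Agent.H73.KG

open Pool.Agent.H84 Pool.Agent.H84.Sym Pool.Agent.H84.Sym.P2x Pool.Agent.H84.Sym.C29
open Pool.Agent.H84.Sym.S29 Pool.Agent.H19.KL

section

variable {E : Type} [NormedAddCommGroup E] [InnerProductSpace ℝ E]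
    [FiniteDimensional ℝ E] [MeasurableSpace E] [BorelSpace E]
variable {ι : Type*} [Fintype ι]

theorem IMP_D_li (e w x : E) : D w (li e) x = inner ℝ e w := by
  have h : (li e : E → ℝ) = fun y => (innerSL ℝ e) y := by
    funext y
    simp [li]
  unfold D
  rw [h, ContinuousLinearMap.fderiv]
  simp

theorem IMP_li_smooth (e : E) : ContDiff ℝ 1 (li e) := by
  have h : (li e : E → ℝ) = fun y => (innerSL ℝ e) y := by
    funext y
    simp [li]
  rw [h]
  exact (innerSL ℝ e).contDiff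

/-- The mean gradient is bounded by the covariance. -/
theorem IMP_mean (b : OrthonormalBasis ι ℝ E) {U u : E → ℝ} {t C a : ℝ} (hU : Pot U t C)
    (hp : IsProbabilityMeasure (mu U)) (ha : 0 < a) (hcov : CovLe U a) (hu : Tst u) :
    ∑ i, (∫ x, D (b i) u x ∂(mu U)) ^ 2 ≤ a * ∫ x, (LO b U u x) ^ 2 ∂(mu U) := by
  have hU1 : ContDiff ℝ 1 U := hU.smooth.of_le (by norm_num)
  have hu1 : ContDiff ℝ 1 u := hu.1.of_le (by exact_mod_cast (le_top : (1 : ℕ∞) ≤ ⊤))
  have hL : GC (LO b U u) := GC.of_BC (LO_BC b hU1 hu)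
  set m : ι → ℝ := fun i => ∫ x, D (b i) u x ∂(mu U) with hm
  set e : E := ∑ i, m i • b i with he
  have hne : ‖e‖ ^ 2 = ∑ i, m i ^ 2 := normsq_expand b m
  have hin : ∀ i, inner ℝ e (b i) = m i := by
    intro i
    rw [he, real_inner_comm, b.orthonormal.inner_right_fintype]
  have g1 := green b (f := li e) hU1 (by simpa using contDiff_infty.mp hu.1 2)
    (IMP_li_smooth e) (Or.inl hu.2)
  have g0 := green b (f := fun _ => (1:ℝ)) hU1 (by simpa using contDiff_infty.mp hu.1 2)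
    contDiff_const (Or.inl hu.2)
  have e0 : ∫ x, LO b U u x ∂(mu U) = 0 := by
    have h1 : ∀ x, (∑ i, D (b i) u x * D (b i) (fun _ : E => (1:ℝ)) x) = 0 := by
      intro x
      refine Finset.sum_eq_zero fun i _ => ?_
      simp [D]
    simp only [h1, mul_one, integral_zero, neg_zero] at g0
    exact g0
  have e1 : ∫ x, LO b U u x * li e x ∂(mu U) = -∑ i, m i ^ 2 := by
    rw [g1, integral_finsetSum]
    · congr 1
      refine Finset.sum_congr rfl fun i _ => ?_
      simp only [IMP_D_li, hin]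
      rw [integral_mul_const]
      simp only [hm]
      ring
    · intro i _
      simp only [IMP_D_li]
      exact ((D_BC hu1 hu.2 (b i)).integrable (mu U)).mul_const _
  have hcs := BAS_cs hU hp hL (BAS_li e)
  have c1 : cv U (LO b U u) (li e) = -∑ i, m i ^ 2 := by
    unfold cv
    rw [e1, e0]
    ring
  have c2 : cv U (LO b U u) (LO b U u) = ∫ x, (LO b U u x) ^ 2 ∂(mu U) := by
    unfold cv
    rw [e0]
    simp only [← pow_two]
    ring
  rw [c1, c2] at hcs
  have hJ : 0 ≤ ∫ x, (LO b U u x) ^ 2 ∂(mu U) := integral_nonneg fun x => sq_nonneg _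
  have h3 := mul_le_mul_of_nonneg_left (hcov e) hJ
  rw [hne] at h3
  have hS : 0 ≤ ∑ i, m i ^ 2 := Finset.sum_nonneg fun i _ => sq_nonneg _
  have h4 : (∑ i, m i ^ 2) * (∑ i, m i ^ 2) ≤
      (a * ∫ x, (LO b U u x) ^ 2 ∂(mu U)) * (∑ i, m i ^ 2) := by nlinarith
  change ∑ i, m i ^ 2 ≤ _
  rcases hS.lt_or_eq with h | h
  · exact le_of_mul_le_mul_right h4 h
  · rw [← h]
    positivity

/-- One step of the improvement of the constant. -/
theorem IMP_step (b : OrthonormalBasis ι ℝ E) {U : E → ℝ} {t C a L : ℝ} (hU : Pot U t C)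
    (hp : IsProbabilityMeasure (mu U)) (ha : 0 < a) (hcov : CovLe U a) (hL : 0 < L)
    (hpc : GPC (mu U) L) : GPC (mu U) ((a + L) / (1 + t * L)) := by
  have ht := hU.pos
  have hk : 0 < (1 + t * L) / (a + L) := by positivity
  have hinv : (a + L) / (1 + t * L) = 1 / ((1 + t * L) / (a + L)) := by
    rw [one_div_div]
  rw [hinv]
  refine gpc_of_coer b hU hk fun u hu => ?_
  have hM : (mu U).real univ = 1 := by simp
  have hu1 : ContDiff ℝ 1 u := hu.1.of_le (by exact_mod_cast (le_top : (1 : ℕ∞) ≤ ⊤))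
  have hS := IMP_mean b hU hp ha hcov hu
  have hbo := bochner b (q := fun _ => t) hU.smooth continuous_const (fun x v => hU.hess x v)
    (by simpa using contDiff_infty.mp hu.1 3) hu.2
  rw [integral_const_mul] at hbo
  have hgr : ∀ i, BC (fun x => ‖fderiv ℝ (D (b i) u) x‖ ^ 2) := fun i =>
    grad_BC ((tst_D hu (b i)).1.of_le (by exact_mod_cast (le_top : (1 : ℕ∞) ≤ ⊤)))
      (tst_D hu (b i)).2
  rw [integral_finsetSum _ (fun i _ => (hgr i).integrable (mu U))] at hbo
  have hpi : ∀ i, ((∫ x, D (b i) u x ^ 2 ∂(mu U)) - (∫ x, D (b i) u x ∂(mu U)) ^ 2) ≤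
      L * ∫ x, ‖fderiv ℝ (D (b i) u) x‖ ^ 2 ∂(mu U) := by
    intro i
    have := hpc (D (b i) u)
      ((tst_D hu (b i)).1.of_le (by exact_mod_cast (le_top : (1 : ℕ∞) ≤ ⊤))) (tst_D hu (b i)).2
    rwa [hM, one_mul, one_mul] at this
  have hsum := Finset.sum_le_sum fun i (_ : i ∈ Finset.univ) => hpi i
  rw [← Finset.mul_sum, Finset.sum_sub_distrib] at hsum
  have hI : ∑ i, ∫ x, D (b i) u x ^ 2 ∂(mu U) = ∫ x, ‖fderiv ℝ u x‖ ^ 2 ∂(mu U) := by
    rw [← integral_finsetSum _ (fun i _ => ((D_BC hu1 hu.2 (b i)).sq).integrable (mu U))]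
    simp only [norm_fderiv_sq b u]
  rw [hI] at hsum
  rw [div_mul_eq_mul_div, div_le_iff₀ (by positivity)]
  nlinarith

end

theorem imp_thm (E : Type) [NormedAddCommGroup E] [InnerProductSpace ℝ E]
    [FiniteDimensional ℝ E] [MeasurableSpace E] [BorelSpace E] : IMPStmt E := by
  rintro U t a ⟨⟨C, hU⟩, hp⟩ ha hcov
  have ht := hU.pos
  set b := stdOrthonormalBasis ℝ E
  set S : Set ℝ := {L | 0 < L ∧ GPC (mu U) L} with hS
  have hne : S.Nonempty := ⟨1 / t, by positivity, BAS_gpc hU⟩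
  have hbd : BddBelow S := ⟨0, fun L hL => hL.1.le⟩
  set Ls := sInf S with hLs
  have h0 : 0 ≤ Ls := le_csInf hne fun L hL => hL.1.le
  have hstep : ∀ L ∈ S, Ls * (1 + t * L) ≤ a + L := by
    intro L hL
    have hL0 := hL.1
    have h1 : (a + L) / (1 + t * L) ∈ S :=
      ⟨by positivity, IMP_step b hU hp ha hcov hL.1 hL.2⟩
    have h2 := csInf_le hbd h1
    rwa [le_div_iff₀ (by positivity)] at h2
  have hmain : t * Ls ^ 2 ≤ a := by
    have : Ls * (1 + t * Ls) ≤ a + Ls := by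
      refine le_of_forall_pos_le_add fun ε hε => ?_
      obtain ⟨L, hL, hlt⟩ := exists_lt_of_csInf_lt hne (show sInf S < Ls + ε by linarith)
      have h1 := hstep L hL
      have h2 : Ls ≤ L := csInf_le hbd hL
      have h3 : Ls * (1 + t * Ls) ≤ Ls * (1 + t * L) := by
        refine mul_le_mul_of_nonneg_left ?_ h0
        nlinarith
      linarith
    nlinarith
  have hsq : Ls ≤ Real.sqrt (a / t) := by
    apply Real.le_sqrt_of_sq_le
    rw [le_div_iff₀ ht]
    linarith
  intro f hf hc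
  set G := (mu U).real univ * ∫ x, ‖fderiv ℝ f x‖ ^ 2 ∂(mu U) with hG
  have hG0 : 0 ≤ G := by
    rw [hG]
    exact mul_nonneg measureReal_nonneg (integral_nonneg fun x => sq_nonneg _)
  have hle : (mu U).real univ * (∫ x, f x ^ 2 ∂(mu U)) - (∫ x, f x ∂(mu U)) ^ 2 ≤ Ls * G := by
    refine le_of_forall_pos_le_add fun ε hε => ?_
    have hε' : 0 < ε / (G + 1) := by positivity
    obtain ⟨L, hL, hlt⟩ := exists_lt_of_csInf_lt hne (show sInf S < Ls + ε / (G + 1) by linarith)
    have h1 := hL.2 f hf hc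
    have h2 : L * G ≤ (Ls + ε / (G + 1)) * G := mul_le_mul_of_nonneg_right hlt.le hG0
    have h3 : ε / (G + 1) * G ≤ ε := by
      rw [div_mul_eq_mul_div, div_le_iff₀ (by positivity)]
      nlinarith
    calc _ ≤ L * G := h1
      _ ≤ (Ls + ε / (G + 1)) * G := h2
      _ = Ls * G + ε / (G + 1) * G := by ring
      _ ≤ _ := by linarith
  exact hle.trans (mul_le_mul_of_nonneg_right hsq hG0)

end Pool.Agent.H73.KG
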